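import Pool.Agent.X243.HFree.Pack

/-! The hitting probability of a sample of size `s`. -/

open Finset

namespace Pool.Agent.X243.HFree

set_option linter.unusedSectionVars false

variable {Λ : Type*} [Fintype Λ] [DecidableEq Λ]

/-- the sample `y` contains all elements of a member of `C` that lies inside `E` -/
def Hit (C : Set (Finset Λ)) (E : Finset Λ) {κ : Type*} (y : κ → Λ) : Prop :=
  ∃ K ∈ C, K ⊆ E ∧ ∀ a ∈ K, ∃ k, y k = a

open Classical in
/-- probability of `Hit` -/
noncomputable def hp (C : Set (Finset Λ)) (E : Finset Λ) (μ : Λ → ℝ) (κ : Type*) [Fintype κ]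
    [DecidableEq κ] : ℝ := ∑ y : κ → Λ, wt μ y * (if Hit C E y then 1 else 0)

variable {C : Set (Finset Λ)} {E : Finset Λ} {e N : ℕ}

lemma hit_mono {κ κ' : Type*} (φ : κ → κ') (y : κ' → Λ) (h : Hit C E (y ∘ φ)) : Hit C E y := by
  obtain ⟨K, hK, hKE, h1⟩ := h
  refine ⟨K, hK, hKE, fun a ha => ?_⟩
  obtain ⟨k, hk⟩ := h1 a ha
  exact ⟨φ k, hk⟩

open Classical in
lemma hp_mono {κ κ' : Type*} [Fintype κ] [Fintype κ'] [DecidableEq κ] [DecidableEq κ'] {μ : Λ → ℝ} (h0 : ∀ a, 0 ≤ μ a)
    (h1 : ∑ a, μ a = 1) (φ : κ → κ') (hφ : Function.Injective φ) :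
    hp C E μ κ ≤ hp C E μ κ' := by
  unfold hp
  rw [← marginal h1 φ hφ (fun y => if Hit C E y then 1 else 0)]
  apply sum_le_sum
  intro x _
  apply mul_le_mul_of_nonneg_left _ (wt_nonneg h0 x)
  split_ifs with h2 h3 h3
  · exact le_refl _
  · exact absurd (hit_mono φ x h2) h3
  · norm_num
  · exact le_refl _

open Classical in
lemma hp_sub {μ : Λ → ℝ} (h0 : ∀ a, 0 ≤ μ a) (h1 : ∑ a, μ a = 1) (S : Finset (Fin N)) {s : ℕ}
    (hS : S.card ≤ s) :
    ∑ x : Fin N → Λ, wt μ x * (if Hit C E (fun i : S => x i) then 1 else 0) ≤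
      hp C E μ (Fin s) := by
  have h2 := marginal (Λ := Λ) h1 (fun i : S => (i : Fin N)) Subtype.val_injective
    (fun y : S → Λ => if Hit C E y then (1 : ℝ) else 0)
  have h3 : (∑ x : Fin N → Λ, wt μ x * (if Hit C E (fun i : S => x i) then 1 else 0)) =
      hp C E μ S := h2
  rw [h3]
  have hc : Fintype.card S ≤ Fintype.card (Fin s) := by simpa using hS
  obtain ⟨φ⟩ := Function.Embedding.nonempty_of_card_le hc
  exact hp_mono h0 h1 φ φ.injective

open Classical in
theorem hit_prob (he : 1 ≤ e) (hC : ∀ K ∈ C, K.card = e) {X : ℕ} (hX1 : 1 ≤ X)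
    (hX : ∀ S : Finset Λ, Free C S → S.card ≤ X)
    {μ : Λ → ℝ} (h0 : ∀ a, 0 ≤ μ a)
    (h1 : ∑ a, μ a = 1) {ε : ℝ} (hε0 : 0 < ε) (hε1 : ε ≤ 1)
    (hfar : ∀ g ⊆ E, Free C g → ε ≤ ∑ a ∈ E \ g, μ a)
    (hN : 8 * (X : ℝ) / ε ≤ N) {s : ℕ} (hs0 : 0 < s) (hs : s ≤ 8 * N)
    (hq : 8 * (e : ℝ) ≤ X * ((s : ℝ) / (8 * N)) ^ e) :
    2 / 3 ≤ hp C E μ (Fin s) := by
  have hXpos : (0 : ℝ) < X := by exact_mod_cast hX1
  have hepos : (0 : ℝ) < e := by exact_mod_cast he
  have hNpos : (0 : ℝ) < N := lt_of_lt_of_le (by positivity) hN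
  have hspos : (0 : ℝ) < s := by exact_mod_cast hs0
  set q : ℝ := (s : ℝ) / (8 * N) with hqdef
  have hq0 : 0 < q := by positivity
  have hq1 : q ≤ 1 := by
    rw [hqdef, div_le_one (by positivity)]
    exact_mod_cast hs
  -- the double sum
  set D : ℝ := ∑ S : Finset (Fin N), bw q S *
    ∑ x : Fin N → Λ, wt μ x * (if S.card ≤ s ∧ Hit C E (fun i : S => x i) then 1 else 0) with hD
  have hDle : D ≤ hp C E μ (Fin s) := by
    have hpn : 0 ≤ hp C E μ (Fin s) := by
      unfold hp
      apply sum_nonneg
      intro y _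
      apply mul_nonneg (wt_nonneg h0 y)
      split_ifs <;> norm_num
    calc D ≤ ∑ S : Finset (Fin N), bw q S * hp C E μ (Fin s) := by
          apply sum_le_sum
          intro S _
          apply mul_le_mul_of_nonneg_left _ (bw_nonneg hq0.le hq1 S)
          by_cases hS : S.card ≤ s
          · refine le_trans (le_of_eq ?_) (hp_sub h0 h1 S hS)
            apply sum_congr rfl
            intro x _
            simp [hS]
          · refine le_trans (le_of_eq ?_) hpn
            apply sum_eq_zero
            intro x _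
            simp [hS]
      _ = hp C E μ (Fin s) := by rw [← sum_mul, bw_total, one_mul]
  have hDge : (3 / 4 : ℝ) * (∑ x : Fin N → Λ, wt μ x * (if 2 * X ≤ V C E e N x then 1 else 0)) ≤
      D := by
    have hD2 : D = ∑ x : Fin N → Λ, wt μ x * ∑ S : Finset (Fin N), bw q S *
        (if S.card ≤ s ∧ Hit C E (fun i : S => x i) then 1 else 0) := by
      rw [hD]
      simp only [mul_sum]
      rw [sum_comm]
      apply sum_congr rfl
      intro x _
      apply sum_congr rfl
      intro S _
      ring
    rw [hD2, mul_sum]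
    apply sum_le_sum
    intro x _
    rw [mul_left_comm]
    apply mul_le_mul_of_nonneg_left _ (wt_nonneg h0 x)
    split_ifs with hV
    · obtain ⟨A, J, hP, hAJ⟩ := exists_V (E := E) he hC N x
      have hJ : J.card ≤ X := by
        rw [← card_image_of_injOn hP.inj]
        exact hX _ hP.free
      have hA : X ≤ e * A.card := by omega
      have hA0 : 0 < A.card := by
        rcases Nat.eq_zero_or_pos A.card with h | h
        · rw [h, mul_zero] at hA
          omega
        · exact h
      have hA' : (X : ℝ) ≤ e * A.card := by exact_mod_cast hA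
      have hmiss := bw_miss hq0 hq1 e A hP.dis hP.crd hA0
      have hM : 8 ≤ (A.card : ℝ) * q ^ e := by
        have h3 : 0 < q ^ e := by positivity
        have h4 : 8 * (e : ℝ) ≤ e * A.card * q ^ e :=
          hq.trans (mul_le_mul_of_nonneg_right hA' h3.le)
        have h5 : (e : ℝ) * 8 ≤ e * (A.card * q ^ e) := by linarith
        exact le_of_mul_le_mul_left h5 hepos
      have hmiss' : ∑ S : Finset (Fin N), (if ∃ I ∈ A, I ⊆ S then 0 else bw q S) ≤ 1 / 8 := by
        refine hmiss.trans ?_
        apply one_div_le_one_div_of_le (by norm_num) hM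
      have hcard := bw_card (ι := Fin N) hq0.le hq1 s hs0
      have hcard' : ∑ S : Finset (Fin N), (if S.card ≤ s then 0 else bw q S) ≤ 1 / 8 := by
        refine hcard.trans (le_of_eq ?_)
        rw [Fintype.card_fin, hqdef]
        field_simp
      have htot := bw_total (ι := Fin N) q
      have hsum : ∑ S : Finset (Fin N), (bw q S - (if ∃ I ∈ A, I ⊆ S then 0 else bw q S) -
          (if S.card ≤ s then 0 else bw q S)) ≤ ∑ S : Finset (Fin N), bw q S *
        (if S.card ≤ s ∧ Hit C E (fun i : S => x i) then 1 else 0) := by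
        apply sum_le_sum
        intro S _
        have hb := bw_nonneg hq0.le hq1 S
        by_cases hS : S.card ≤ s
        · by_cases hI : ∃ I ∈ A, I ⊆ S
          · have hh : Hit C E (fun i : S => x i) := by
              obtain ⟨I, hI, hIS⟩ := hI
              refine ⟨I.image x, hP.mem I hI, hP.sub I hI, ?_⟩
              intro a ha
              obtain ⟨i, hi, rfl⟩ := mem_image.1 ha
              exact ⟨⟨i, hIS hi⟩, rfl⟩
            rw [if_pos hI, if_pos hS, if_pos ⟨hS, hh⟩]
            linarith
          · rw [if_neg hI, if_pos hS]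
            have : 0 ≤ bw q S * (if S.card ≤ s ∧ Hit C E (fun i : S => x i) then (1 : ℝ) else 0) := by
              apply mul_nonneg hb
              split_ifs <;> norm_num
            linarith
        · rw [if_neg hS]
          have : 0 ≤ bw q S * (if S.card ≤ s ∧ Hit C E (fun i : S => x i) then (1 : ℝ) else 0) := by
            apply mul_nonneg hb
            split_ifs <;> norm_num
          have h6 : (0 : ℝ) ≤ (if ∃ I ∈ A, I ⊆ S then 0 else bw q S) := by
            split_ifs
            · exact le_refl _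
            · exact hb
          linarith
      rw [sum_sub_distrib, sum_sub_distrib, htot] at hsum
      linarith
    · rw [mul_zero]
      apply sum_nonneg
      intro S _
      apply mul_nonneg (bw_nonneg hq0.le hq1 S)
      split_ifs <;> norm_num
  have hgood : 1 - 1 / 12 ≤ ∑ x : Fin N → Λ, wt μ x * (if 2 * X ≤ V C E e N x then 1 else 0) := by
    have hm := moment (N := N) he hC h0 h1 (by linarith : ε ≤ 2) hfar N le_rfl
    have hbad : ∑ x : Fin N → Λ, wt μ x * (if 2 * X ≤ V C E e N x then 0 else 1) ≤
        4 ^ X * (1 - ε / 2) ^ N := by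
      calc ∑ x : Fin N → Λ, wt μ x * (if 2 * X ≤ V C E e N x then 0 else 1) ≤
          ∑ x : Fin N → Λ, 4 ^ X * (wt μ x * (1 / 2 : ℝ) ^ V C E e N x) := by
            apply sum_le_sum
            intro x _
            have hw := wt_nonneg h0 x
            split_ifs with h
            · rw [mul_zero]
              positivity
            · rw [mul_one]
              have h7 : (1 / 2 : ℝ) ^ (2 * X) ≤ (1 / 2 : ℝ) ^ V C E e N x :=
                pow_le_pow_of_le_one (by norm_num) (by norm_num) (by omega)
              have h8 : (4 : ℝ) ^ X * (1 / 2 : ℝ) ^ (2 * X) = 1 := by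
                rw [pow_mul, ← mul_pow]
                norm_num
              calc wt μ x = (4 ^ X * (1 / 2 : ℝ) ^ (2 * X)) * wt μ x := by rw [h8, one_mul]
                _ ≤ (4 ^ X * (1 / 2 : ℝ) ^ V C E e N x) * wt μ x := by
                    apply mul_le_mul_of_nonneg_right _ hw
                    exact mul_le_mul_of_nonneg_left h7 (by positivity)
                _ = _ := by ring
        _ = 4 ^ X * ∑ x : Fin N → Λ, (wt μ x * (1 / 2 : ℝ) ^ V C E e N x) := by rw [mul_sum]
        _ ≤ _ := mul_le_mul_of_nonneg_left hm (by positivity)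
    have hexp : (4 : ℝ) ^ X * (1 - ε / 2) ^ N ≤ 1 / 12 := by
      have h9 : (1 - ε / 2) ^ N ≤ Real.exp (-(4 * X)) := by
        calc (1 - ε / 2) ^ N ≤ (Real.exp (-(ε / 2))) ^ N := by
              apply pow_le_pow_left₀ (by linarith)
              have := Real.add_one_le_exp (-(ε / 2))
              linarith
          _ = Real.exp (-(ε / 2) * N) := by rw [← Real.exp_nat_mul]; ring_nf
          _ ≤ _ := by
              apply Real.exp_le_exp.2
              rw [div_le_iff₀ hε0] at hN
              nlinarith
      have h10 : Real.exp (-(4 * (X : ℝ))) = (Real.exp (-4)) ^ X := by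
        rw [← Real.exp_nat_mul]
        ring_nf
      have h11 : Real.exp (-4) ≤ 1 / 48 := by
        rw [Real.exp_neg, ← one_div]
        apply one_div_le_one_div_of_le (by norm_num)
        have h12 : (2.7 : ℝ) < Real.exp 1 := by
          have := Real.exp_one_gt_d9
          linarith
        have h13 : Real.exp 4 = Real.exp 1 ^ 4 := by
          rw [← Real.exp_nat_mul]
          norm_num
        rw [h13]
        calc (48 : ℝ) ≤ 2.7 ^ 4 := by norm_num
          _ ≤ Real.exp 1 ^ 4 := pow_le_pow_left₀ (by norm_num) h12.le 4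
      calc (4 : ℝ) ^ X * (1 - ε / 2) ^ N ≤ 4 ^ X * (1 / 48) ^ X := by
            apply mul_le_mul_of_nonneg_left _ (by positivity)
            refine h9.trans ?_
            rw [h10]
            exact pow_le_pow_left₀ (Real.exp_pos _).le h11 X
        _ = (1 / 12) ^ X := by
            rw [← mul_pow]
            norm_num
        _ ≤ (1 / 12) ^ 1 := pow_le_pow_of_le_one (by norm_num) (by norm_num) hX1
        _ = 1 / 12 := by norm_num
    have hsplit : ∑ x : Fin N → Λ, wt μ x * (if 2 * X ≤ V C E e N x then (1 : ℝ) else 0) =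
        1 - ∑ x : Fin N → Λ, wt μ x * (if 2 * X ≤ V C E e N x then (0 : ℝ) else 1) := by
      rw [eq_sub_iff_add_eq, ← sum_add_distrib]
      refine Eq.trans ?_ (wt_total (ι := Fin N) h1)
      apply sum_congr rfl
      intro x _
      split_ifs <;> ring
    rw [hsplit]
    linarith
  linarith

end Pool.Agent.X243.HFree
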