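import Pool.Agent.X243.HFree.Prob

/-! Online greedy packing of hyperedges in an i.i.d. sample. -/

open Finset

namespace Pool.Agent.X243.HFree

variable {Λ : Type*} [Fintype Λ] [DecidableEq Λ]

/-- `S` contains no member of `C`. -/
def Free (C : Set (Finset Λ)) (S : Finset Λ) : Prop := ∀ K ∈ C, ¬ K ⊆ S

/-- a family `A` of disjoint index sets which are copies of members of `C`, and a set `J` of
further indices carrying a `C`-free set; all indices are below `m`. -/
structure Pack (C : Set (Finset Λ)) (E : Finset Λ) (e : ℕ) {N : ℕ} (m : ℕ) (x : Fin N → Λ)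
    (A : Finset (Finset (Fin N))) (J : Finset (Fin N)) : Prop where
  dis : (A : Set (Finset (Fin N))).PairwiseDisjoint id
  crd : ∀ I ∈ A, I.card = e
  low : ∀ I ∈ A, ∀ i ∈ I, (i : ℕ) < m
  mem : ∀ I ∈ A, I.image x ∈ C
  sub : ∀ I ∈ A, I.image x ⊆ E
  dJ : ∀ I ∈ A, Disjoint I J
  lowJ : ∀ j ∈ J, (j : ℕ) < m
  inj : Set.InjOn x (J : Set (Fin N))
  subJ : J.image x ⊆ E
  free : Free C (J.image x)

variable {C : Set (Finset Λ)} {E : Finset Λ} {e N : ℕ}

lemma image_update {m : ℕ} {x : Fin N → Λ} {i : Fin N} (hi : (i : ℕ) = m) (a : Λ)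
    (I : Finset (Fin N)) (hI : ∀ j ∈ I, (j : ℕ) < m) :
    I.image (Function.update x i a) = I.image x := by
  apply image_congr
  intro j hj
  have : j ≠ i := by
    rintro rfl
    have := hI j hj
    omega
  exact Function.update_of_ne this _ _

lemma Pack.update {m : ℕ} {x : Fin N → Λ} {A : Finset (Finset (Fin N))} {J : Finset (Fin N)}
    (h : Pack C E e m x A J) {i : Fin N} (hi : (i : ℕ) = m) (a : Λ) :
    Pack C E e m (Function.update x i a) A J where
  dis := h.dis
  crd := h.crd
  low := h.low
  mem := fun I hI => by rw [image_update hi a I (h.low I hI)]; exact h.mem I hI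
  sub := fun I hI => by rw [image_update hi a I (h.low I hI)]; exact h.sub I hI
  dJ := h.dJ
  lowJ := h.lowJ
  inj := by
    intro j hj k hk hjk
    have h1 : j ≠ i := by
      rintro rfl
      have := h.lowJ j hj
      omega
    have h2 : k ≠ i := by
      rintro rfl
      have := h.lowJ k hk
      omega
    rw [Function.update_of_ne h1, Function.update_of_ne h2] at hjk
    exact h.inj hj hk hjk
  subJ := by rw [image_update hi a J h.lowJ]; exact h.subJ
  free := by rw [image_update hi a J h.lowJ]; exact h.free

lemma Pack.mono {m m' : ℕ} {x : Fin N → Λ} {A : Finset (Finset (Fin N))} {J : Finset (Fin N)}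
    (h : Pack C E e m x A J) (hm : m ≤ m') : Pack C E e m' x A J where
  dis := h.dis
  crd := h.crd
  low := fun I hI i hi => (h.low I hI i hi).trans_le hm
  mem := h.mem
  sub := h.sub
  dJ := h.dJ
  lowJ := fun j hj => (h.lowJ j hj).trans_le hm
  inj := h.inj
  subJ := h.subJ
  free := h.free

lemma Pack.step (hC : ∀ K ∈ C, K.card = e) {m : ℕ} {x : Fin N → Λ}
    {A : Finset (Finset (Fin N))} {J : Finset (Fin N)} (h : Pack C E e m x A J) {i : Fin N}
    (hi : (i : ℕ) = m) (hxE : x i ∈ E) (hxJ : x i ∉ J.image x) :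
    ∃ A' J', Pack C E e (m + 1) x A' J' ∧ e * A'.card + J'.card = e * A.card + J.card + 1 := by
  classical
  have hiJ : i ∉ J := fun hh => hxJ (mem_image_of_mem x hh)
  have hinj : Set.InjOn x ((insert i J : Finset (Fin N)) : Set (Fin N)) := by
    rw [coe_insert]
    intro j hj k hk hjk
    rcases hj with rfl | hj <;> rcases hk with rfl | hk
    · rfl
    · exact absurd (mem_image.2 ⟨k, hk, hjk.symm⟩) hxJ
    · exact absurd (mem_image.2 ⟨j, hj, hjk⟩) hxJ
    · exact h.inj hj hk hjk
  have hiA : ∀ I ∈ A, i ∉ I := by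
    intro I hI hh
    have := h.low I hI i hh
    omega
  have hsub : (insert i J).image x ⊆ E := by
    rw [image_insert]
    exact insert_subset hxE h.subJ
  have hlow : ∀ j ∈ insert i J, (j : ℕ) < m + 1 := by
    intro j hj
    rcases mem_insert.1 hj with rfl | hj
    · omega
    · have := h.lowJ j hj
      omega
  by_cases hf : Free C ((insert i J).image x)
  · refine ⟨A, insert i J, ⟨h.dis, h.crd, fun I hI j hj => (h.low I hI j hj).trans (by omega),
      h.mem, h.sub, ?_, hlow, hinj, hsub, hf⟩, ?_⟩
    · intro I hI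
      rw [disjoint_insert_right]
      exact ⟨hiA I hI, h.dJ I hI⟩
    · rw [card_insert_of_notMem hiJ]
      ring
  · unfold Free at hf
    push Not at hf
    obtain ⟨K, hK, hKs⟩ := hf
    set I := (insert i J).filter (fun j => x j ∈ K) with hIdef
    have hIs : I ⊆ insert i J := filter_subset _ _
    have hIimg : I.image x = K := by
      ext b
      rw [mem_image]
      constructor
      · rintro ⟨j, hj, rfl⟩
        exact (mem_filter.1 hj).2
      · intro hb
        obtain ⟨j, hj, rfl⟩ := mem_image.1 (hKs hb)
        exact ⟨j, mem_filter.2 ⟨hj, hb⟩, rfl⟩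
    have hIcard : I.card = e := by
      rw [← hC K hK, ← hIimg, card_image_of_injOn]
      exact hinj.mono (by exact_mod_cast hIs)
    have hiI : i ∈ I := by
      by_contra hcon
      apply h.free K hK
      rw [← hIimg]
      apply image_subset_image
      intro j hj
      rcases mem_insert.1 (hIs hj) with rfl | hj'
      · exact absurd hj hcon
      · exact hj'
    have hIA : I ∉ A := fun hh => hiA I hh hiI
    have hdis : ∀ I' ∈ A, Disjoint I' I := by
      intro I' hI'
      refine Disjoint.mono_right hIs ?_
      rw [disjoint_insert_right]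
      exact ⟨hiA I' hI', h.dJ I' hI'⟩
    refine ⟨insert I A, insert i J \ I, ⟨?_, ?_, ?_, ?_, ?_, ?_, ?_, ?_, ?_, ?_⟩, ?_⟩
    · rw [coe_insert]
      apply Set.PairwiseDisjoint.insert h.dis
      intro I' hI' _
      exact (hdis I' hI').symm
    · intro I' hI'
      rcases mem_insert.1 hI' with rfl | hI'
      · exact hIcard
      · exact h.crd I' hI'
    · intro I' hI' j hj
      rcases mem_insert.1 hI' with rfl | hI'
      · exact hlow j (hIs hj)
      · have := h.low I' hI' j hj
        omega
    · intro I' hI'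
      rcases mem_insert.1 hI' with rfl | hI'
      · rw [hIimg]; exact hK
      · exact h.mem I' hI'
    · intro I' hI'
      rcases mem_insert.1 hI' with rfl | hI'
      · exact (image_subset_image hIs).trans hsub
      · exact h.sub I' hI'
    · intro I' hI'
      rcases mem_insert.1 hI' with rfl | hI'
      · exact disjoint_sdiff
      · refine Disjoint.mono_right sdiff_subset ?_
        rw [disjoint_insert_right]
        exact ⟨hiA I' hI', h.dJ I' hI'⟩
    · intro j hj
      exact hlow j (mem_sdiff.1 hj).1
    · exact hinj.mono (by exact_mod_cast sdiff_subset)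
    · exact (image_subset_image sdiff_subset).trans hsub
    · intro K' hK' hsub'
      apply h.free K' hK'
      refine hsub'.trans (image_subset_image ?_)
      intro j hj
      rw [mem_sdiff] at hj
      rcases mem_insert.1 hj.1 with rfl | hj'
      · exact absurd hiI hj.2
      · exact hj'
    · rw [card_insert_of_notMem hIA, card_sdiff_of_subset hIs, card_insert_of_notMem hiJ, hIcard]
      have h1 : e ≤ J.card + 1 := by
        rw [← hIcard, ← card_insert_of_notMem hiJ]
        exact card_le_card hIs
      have h2 : e * (A.card + 1) = e * A.card + e := by ring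
      rw [h2]
      omega

open Classical in
/-- maximal value of a packing -/
noncomputable def V (C : Set (Finset Λ)) (E : Finset Λ) (e : ℕ) {N : ℕ} (m : ℕ) (x : Fin N → Λ) :
    ℕ :=
  ((univ : Finset (Finset (Finset (Fin N)) × Finset (Fin N))).filter
    (fun p => Pack C E e m x p.1 p.2)).sup (fun p => e * p.1.card + p.2.card)

lemma le_V {m : ℕ} {x : Fin N → Λ} {A : Finset (Finset (Fin N))} {J : Finset (Fin N)}
    (h : Pack C E e m x A J) : e * A.card + J.card ≤ V C E e m x := by
  classical
  unfold V
  exact le_sup (f := fun p : Finset (Finset (Fin N)) × Finset (Fin N) =>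
    e * p.1.card + p.2.card) (mem_filter.2 ⟨mem_univ (A, J), h⟩)

lemma pack_empty (he : 1 ≤ e) (hC : ∀ K ∈ C, K.card = e) (m : ℕ) (x : Fin N → Λ) :
    Pack C E e m x ∅ ∅ where
  dis := by simp
  crd := by simp
  low := by simp
  mem := by simp
  sub := by simp
  dJ := by simp
  lowJ := by simp
  inj := by simp
  subJ := by simp
  free := by
    intro K hK hs
    rw [image_empty, subset_empty] at hs
    have := hC K hK
    rw [hs, card_empty] at this
    omega

lemma exists_V (he : 1 ≤ e) (hC : ∀ K ∈ C, K.card = e) (m : ℕ) (x : Fin N → Λ) :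
    ∃ A J, Pack C E e m x A J ∧ e * A.card + J.card = V C E e m x := by
  classical
  have hne : ((univ : Finset (Finset (Finset (Fin N)) × Finset (Fin N))).filter
    (fun p => Pack C E e m x p.1 p.2)).Nonempty :=
    ⟨(∅, ∅), mem_filter.2 ⟨mem_univ _, pack_empty he hC m x⟩⟩
  obtain ⟨p, hp, hp2⟩ := exists_mem_eq_sup _ hne
    (fun p : Finset (Finset (Fin N)) × Finset (Fin N) => e * p.1.card + p.2.card)
  exact ⟨p.1, p.2, (mem_filter.1 hp).2, hp2.symm⟩

/-- exponential moment of the packing value -/
lemma moment (he : 1 ≤ e) (hC : ∀ K ∈ C, K.card = e) {μ : Λ → ℝ} (h0 : ∀ a, 0 ≤ μ a)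
    (h1 : ∑ a, μ a = 1) {ε : ℝ} (hε1 : ε ≤ 2)
    (hfar : ∀ g ⊆ E, Free C g → ε ≤ ∑ a ∈ E \ g, μ a) :
    ∀ m ≤ N, ∑ x : Fin N → Λ, wt μ x * (1 / 2 : ℝ) ^ V C E e m x ≤ (1 - ε / 2) ^ m := by
  intro m
  induction m with
  | zero =>
    intro _
    rw [pow_zero]
    calc ∑ x : Fin N → Λ, wt μ x * (1 / 2 : ℝ) ^ V C E e 0 x ≤ ∑ x : Fin N → Λ, wt μ x := by
          apply sum_le_sum
          intro x _
          have h2 : (1 / 2 : ℝ) ^ V C E e 0 x ≤ 1 := pow_le_one₀ (by norm_num) (by norm_num)
          have h3 := wt_nonneg h0 x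
          nlinarith
      _ = 1 := wt_total h1
  | succ m ih =>
    intro hm
    set i : Fin N := ⟨m, hm⟩ with hi
    have hi' : (i : ℕ) = m := rfl
    rw [← resample h1 i]
    have key : ∀ x : Fin N → Λ, ∑ a, μ a * (1 / 2 : ℝ) ^ V C E e (m + 1) (Function.update x i a) ≤
        (1 / 2 : ℝ) ^ V C E e m x * (1 - ε / 2) := by
      intro x
      obtain ⟨A, J, hP, hV⟩ := exists_V (E := E) he hC m x
      set g := J.image x with hg
      have hbound : ∀ a, (1 / 2 : ℝ) ^ V C E e (m + 1) (Function.update x i a) ≤
          (1 / 2 : ℝ) ^ V C E e m x * (1 - if a ∈ E \ g then 1 / 2 else 0) := by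
        intro a
        have hP' := hP.update hi' a
        split_ifs with ha
        · rw [mem_sdiff] at ha
          have h4 : Function.update x i a i = a := Function.update_self _ _ _
          obtain ⟨A', J', hP2, hv2⟩ := hP'.step hC hi' (by rw [h4]; exact ha.1)
            (by rw [h4, image_update hi' a J hP.lowJ]; exact ha.2)
          have h5 : V C E e m x + 1 ≤ V C E e (m + 1) (Function.update x i a) := by
            rw [← hV, ← hv2]
            exact le_V hP2
          calc (1 / 2 : ℝ) ^ V C E e (m + 1) (Function.update x i a) ≤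
              (1 / 2 : ℝ) ^ (V C E e m x + 1) :=
                pow_le_pow_of_le_one (by norm_num) (by norm_num) h5
            _ = _ := by rw [pow_succ]; norm_num
        · have h5 : V C E e m x ≤ V C E e (m + 1) (Function.update x i a) := by
            rw [← hV]
            exact le_V (hP'.mono (Nat.le_succ m))
          calc (1 / 2 : ℝ) ^ V C E e (m + 1) (Function.update x i a) ≤
              (1 / 2 : ℝ) ^ (V C E e m x) :=
                pow_le_pow_of_le_one (by norm_num) (by norm_num) h5
            _ = _ := by ring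
      calc ∑ a, μ a * (1 / 2 : ℝ) ^ V C E e (m + 1) (Function.update x i a) ≤
          ∑ a, μ a * ((1 / 2 : ℝ) ^ V C E e m x * (1 - if a ∈ E \ g then 1 / 2 else 0)) :=
            sum_le_sum fun a _ => mul_le_mul_of_nonneg_left (hbound a) (h0 a)
        _ = (1 / 2 : ℝ) ^ V C E e m x * (1 - (∑ a ∈ E \ g, μ a) / 2) := by
            have h6 : ∀ a, μ a * ((1 / 2 : ℝ) ^ V C E e m x * (1 - if a ∈ E \ g then 1 / 2 else 0)) =
                (1 / 2 : ℝ) ^ V C E e m x * μ a -
                  (1 / 2 : ℝ) ^ V C E e m x * (1 / 2) * (if a ∈ E \ g then μ a else 0) := by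
              intro a
              split_ifs <;> ring
            rw [sum_congr rfl (fun a _ => h6 a), sum_sub_distrib, ← mul_sum, ← mul_sum, h1]
            have h7 : ∑ a, (if a ∈ E \ g then μ a else 0) = ∑ a ∈ E \ g, μ a := by
              rw [← sum_filter]
              congr 1
              ext a
              simp
            rw [h7]
            ring
        _ ≤ _ := by
            apply mul_le_mul_of_nonneg_left _ (by positivity)
            have := hfar g hP.subJ hP.free
            linarith
    calc ∑ x : Fin N → Λ, wt μ x *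
          ∑ a, μ a * (1 / 2 : ℝ) ^ V C E e (m + 1) (Function.update x i a) ≤
        ∑ x : Fin N → Λ, wt μ x * ((1 / 2 : ℝ) ^ V C E e m x * (1 - ε / 2)) :=
          sum_le_sum fun x _ => mul_le_mul_of_nonneg_left (key x) (wt_nonneg h0 x)
      _ = (∑ x : Fin N → Λ, wt μ x * (1 / 2 : ℝ) ^ V C E e m x) * (1 - ε / 2) := by
          rw [sum_mul]
          exact sum_congr rfl fun x _ => by ring
      _ ≤ (1 - ε / 2) ^ m * (1 - ε / 2) :=
          mul_le_mul_of_nonneg_right (ih (by omega)) (by linarith)
      _ = _ := by rw [pow_succ]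

end Pool.Agent.X243.HFree
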