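import Mathlib

/-! Finite product probability: weights, marginals, resampling, Bernoulli subsets. -/

open Finset

namespace Pool.Agent.X243.HFree

set_option linter.unusedSectionVars false

variable {Λ : Type*} [Fintype Λ] [DecidableEq Λ]

/-- product weight -/
def wt {ι : Type*} [Fintype ι] (μ : Λ → ℝ) (x : ι → Λ) : ℝ := ∏ i, μ (x i)

lemma wt_nonneg {ι : Type*} [Fintype ι] {μ : Λ → ℝ} (h : ∀ a, 0 ≤ μ a) (x : ι → Λ) :
    0 ≤ wt μ x := prod_nonneg fun _ _ => h _

lemma wt_total {ι : Type*} [Fintype ι] [DecidableEq ι] {μ : Λ → ℝ} (h : ∑ a, μ a = 1) :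
    ∑ x : ι → Λ, wt μ x = 1 := by
  have := Finset.prod_univ_sum (fun _ : ι => (univ : Finset Λ)) (fun _ a => μ a)
  rw [Fintype.piFinset_univ] at this
  unfold wt
  rw [← this, h, prod_const_one]

/-- marginals of the product weight under an injection of index sets -/
lemma marginal {ι κ : Type*} [Fintype ι] [Fintype κ] [DecidableEq ι] [DecidableEq κ]
    {μ : Λ → ℝ} (h : ∑ a, μ a = 1) (φ : κ → ι) (hφ : Function.Injective φ)
    (F : (κ → Λ) → ℝ) :
    ∑ x : ι → Λ, wt μ x * F (x ∘ φ) = ∑ y : κ → Λ, wt μ y * F y := by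
  classical
  let e : κ ⊕ {i // i ∉ Set.range φ} ≃ ι :=
    (Equiv.sumCongr (Equiv.ofInjective φ hφ) (Equiv.refl _)).trans (Equiv.Set.sumCompl (Set.range φ))
  have he : ∀ k, e (Sum.inl k) = φ k := by
    intro k
    simp only [e, Equiv.trans_apply, Equiv.sumCongr_apply, Sum.map_inl, Equiv.ofInjective_apply]
    exact Equiv.Set.sumCompl_apply_inl _ _
  let E : (κ → Λ) × ({i // i ∉ Set.range φ} → Λ) ≃ (ι → Λ) :=
    (Equiv.sumArrowEquivProdArrow κ {i // i ∉ Set.range φ} Λ).symm.trans
      (Equiv.arrowCongr e (Equiv.refl Λ))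
  have hE : ∀ p j, E p (e j) = Sum.elim p.1 p.2 j := by
    intro p j
    simp [E, Equiv.arrowCongr, Equiv.sumArrowEquivProdArrow]
  rw [← Equiv.sum_comp E, Fintype.sum_prod_type]
  apply sum_congr rfl
  intro y _
  have h1 : ∀ r : {i // i ∉ Set.range φ} → Λ, wt μ (E (y, r)) * F (E (y, r) ∘ φ) =
      (wt μ y * F y) * wt μ r := by
    intro r
    have h2 : E (y, r) ∘ φ = y := by
      funext k
      rw [Function.comp_apply, ← he k, hE]
      rfl
    have h3 : wt μ (E (y, r)) = wt μ y * wt μ r := by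
      unfold wt
      rw [← Equiv.prod_comp e, Fintype.prod_sum_type]
      congr 1
      · apply prod_congr rfl
        intro k _
        rw [hE]
        rfl
      · apply prod_congr rfl
        intro k _
        rw [hE]
        rfl
    rw [h2, h3]
    ring
  rw [sum_congr rfl (fun r _ => h1 r), ← mul_sum, wt_total h, mul_one]

/-- resampling one coordinate -/
lemma resample {ι : Type*} [Fintype ι] [DecidableEq ι] {μ : Λ → ℝ} (h : ∑ a, μ a = 1) (i : ι)
    (F : (ι → Λ) → ℝ) :
    ∑ x : ι → Λ, wt μ x * ∑ a, μ a * F (Function.update x i a) = ∑ x : ι → Λ, wt μ x * F x := by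
  have h1 : ∀ x : ι → Λ, wt μ x * ∑ a, μ a * F (Function.update x i a) =
      ∑ a, wt μ x * μ a * F (Function.update x i a) := by
    intro x
    rw [mul_sum]
    exact sum_congr rfl fun a _ => by ring
  rw [sum_congr rfl (fun x _ => h1 x), ← Fintype.sum_prod_type'
    (f := fun (x : ι → Λ) (a : Λ) => wt μ x * μ a * F (Function.update x i a))]
  have hwt : ∀ (x : ι → Λ) (a : Λ), wt μ x * μ a = wt μ (Function.update x i a) * μ (x i) := by
    intro x a
    unfold wt
    rw [← mul_prod_erase univ (fun j => μ (x j)) (mem_univ i),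
      ← mul_prod_erase univ (fun j => μ (Function.update x i a j)) (mem_univ i)]
    have : ∏ j ∈ univ.erase i, μ (Function.update x i a j) = ∏ j ∈ univ.erase i, μ (x j) := by
      apply prod_congr rfl
      intro j hj
      rw [Function.update_of_ne (ne_of_mem_erase hj)]
    rw [this, Function.update_self]
    ring
  have hinv : Function.Involutive
      (fun p : (ι → Λ) × Λ => (Function.update p.1 i p.2, p.1 i)) := by
    rintro ⟨x, a⟩
    simp
  let e : (ι → Λ) × Λ ≃ (ι → Λ) × Λ := hinv.toPerm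
  have h2 : ∑ p : (ι → Λ) × Λ, wt μ p.1 * μ p.2 * F (Function.update p.1 i p.2) =
      ∑ p : (ι → Λ) × Λ, wt μ p.1 * μ p.2 * F p.1 := by
    rw [← Equiv.sum_comp e (fun p : (ι → Λ) × Λ => wt μ p.1 * μ p.2 * F p.1)]
    apply sum_congr rfl
    rintro ⟨x, a⟩ _
    change wt μ x * μ a * F (Function.update x i a) =
      wt μ (Function.update x i a) * μ (x i) * F (Function.update x i a)
    rw [hwt]
  rw [h2, Fintype.sum_prod_type]
  apply sum_congr rfl
  intro x _
  have : ∀ a, wt μ x * μ a * F x = (wt μ x * F x) * μ a := fun a => by ring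
  rw [sum_congr rfl (fun a _ => this a), ← mul_sum, h, mul_one]

/-- Bernoulli weight of a subset -/
noncomputable def bw {ι : Type*} [Fintype ι] (q : ℝ) (S : Finset ι) : ℝ :=
  q ^ S.card * (1 - q) ^ (Fintype.card ι - S.card)

lemma bw_nonneg {ι : Type*} [Fintype ι] {q : ℝ} (h0 : 0 ≤ q) (h1 : q ≤ 1) (S : Finset ι) :
    0 ≤ bw q S := by
  unfold bw
  have : 0 ≤ 1 - q := by linarith
  positivity

lemma bw_superset {ι : Type*} [Fintype ι] [DecidableEq ι] (q : ℝ) (A : Finset ι) :
    ∑ S : Finset ι, (if A ⊆ S then bw q S else 0) = q ^ A.card := by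
  have h0 := Finset.sum_pow_mul_eq_add_pow q (1 - q) (Aᶜ)
  rw [show q + (1 - q) = 1 by ring, one_pow] at h0
  rw [← sum_filter]
  have h1 : ∑ S ∈ univ.filter (fun S : Finset ι => A ⊆ S), bw q S =
      ∑ T ∈ (Aᶜ).powerset, q ^ A.card * (q ^ T.card * (1 - q) ^ ((Aᶜ).card - T.card)) := by
    symm
    refine sum_bij' (fun T _ => A ∪ T) (fun S _ => S \ A) ?_ ?_ ?_ ?_ ?_
    · intro T hT
      rw [mem_filter]
      exact ⟨mem_univ _, subset_union_left⟩
    · intro S hS
      rw [mem_powerset]
      intro i hi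
      rw [mem_compl]
      exact (mem_sdiff.1 hi).2
    · intro T hT
      rw [mem_powerset] at hT
      ext i
      simp only [mem_sdiff, mem_union]
      constructor
      · rintro ⟨h | h, h'⟩
        · exact absurd h h'
        · exact h
      · intro h
        exact ⟨Or.inr h, mem_compl.1 (hT h)⟩
    · intro S hS
      exact union_sdiff_of_subset (mem_filter.1 hS).2
    · intro T hT
      rw [mem_powerset] at hT
      have hd : Disjoint A T := by
        rw [disjoint_left]
        intro i hi hi'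
        exact mem_compl.1 (hT hi') hi
      unfold bw
      rw [card_union_of_disjoint hd, pow_add, card_compl, Nat.sub_sub]
      ring
  rw [h1, ← mul_sum, h0, mul_one]

lemma bw_total {ι : Type*} [Fintype ι] [DecidableEq ι] (q : ℝ) :
    ∑ S : Finset ι, bw q S = 1 := by
  have := bw_superset (ι := ι) q ∅
  simpa using this

/-- Markov bound for the size of a Bernoulli subset -/
lemma bw_card {ι : Type*} [Fintype ι] [DecidableEq ι] {q : ℝ} (h0 : 0 ≤ q) (h1 : q ≤ 1) (s : ℕ)
    (hs : 0 < s) :
    ∑ S : Finset ι, (if S.card ≤ s then 0 else bw q S) ≤ Fintype.card ι * q / s := by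
  have hE : ∑ S : Finset ι, bw q S * S.card = Fintype.card ι * q := by
    have h2 : ∀ S : Finset ι, bw q S * S.card = ∑ i : ι, (if ({i} : Finset ι) ⊆ S then bw q S else 0) := by
      intro S
      rw [← sum_filter, sum_const, nsmul_eq_mul, mul_comm]
      congr 2
      congr 1
      ext i
      simp
    rw [sum_congr rfl (fun S _ => h2 S), sum_comm]
    rw [sum_congr rfl (fun i _ => bw_superset q ({i} : Finset ι))]
    simp
  rw [le_div_iff₀ (by exact_mod_cast hs), ← hE, sum_mul]
  apply sum_le_sum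
  intro S _
  split_ifs with h
  · rw [zero_mul]
    exact mul_nonneg (bw_nonneg h0 h1 S) (Nat.cast_nonneg _)
  · apply mul_le_mul_of_nonneg_left _ (bw_nonneg h0 h1 S)
    push Not at h
    exact_mod_cast h.le

/-- second moment: a family of `t` disjoint sets of size `e` is missed with probability at most
`1 / (t q^e)`. -/
lemma bw_miss {ι : Type*} [Fintype ι] [DecidableEq ι] {q : ℝ} (h0 : 0 < q) (h1 : q ≤ 1) (e : ℕ)
    (F : Finset (Finset ι)) (hF : (F : Set (Finset ι)).PairwiseDisjoint id)
    (he : ∀ I ∈ F, I.card = e) (ht : 0 < F.card) :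
    ∑ S : Finset ι, (if ∃ I ∈ F, I ⊆ S then 0 else bw q S) ≤ 1 / (F.card * q ^ e) := by
  set M : ℝ := F.card * q ^ e with hM
  have hMpos : 0 < M := by
    have : (0 : ℝ) < F.card := by exact_mod_cast ht
    positivity
  let Z : Finset ι → ℝ := fun S => ∑ I ∈ F, if I ⊆ S then 1 else 0
  have hEZ : ∑ S : Finset ι, bw q S * Z S = M := by
    have : ∀ S : Finset ι, bw q S * Z S = ∑ I ∈ F, (if I ⊆ S then bw q S else 0) := by
      intro S
      simp only [Z, mul_sum, mul_ite, mul_one, mul_zero]
    rw [sum_congr rfl (fun S _ => this S), sum_comm]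
    rw [sum_congr rfl (fun I hI => by rw [bw_superset, he I hI])]
    rw [sum_const, nsmul_eq_mul]
  have hEZ2 : ∑ S : Finset ι, bw q S * Z S ^ 2 ≤ M + M ^ 2 := by
    have h2 : ∀ S : Finset ι, bw q S * Z S ^ 2 =
        ∑ I ∈ F, ∑ J ∈ F, (if I ∪ J ⊆ S then bw q S else 0) := by
      intro S
      rw [sq]
      simp only [Z]
      rw [sum_mul_sum, mul_sum]
      apply sum_congr rfl
      intro I _
      rw [mul_sum]
      apply sum_congr rfl
      intro J _
      by_cases hI : I ⊆ S <;> by_cases hJ : J ⊆ S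
      · rw [if_pos hI, if_pos hJ, if_pos (union_subset hI hJ)]; ring
      · rw [if_neg hJ, if_neg (fun h => hJ (union_subset_right h))]; ring
      · rw [if_neg hI, if_neg (fun h => hI (union_subset_left h))]; ring
      · rw [if_neg hI, if_neg (fun h => hI (union_subset_left h))]; ring
    rw [sum_congr rfl (fun S _ => h2 S), sum_comm]
    have h3 : ∀ I ∈ F, ∑ S : Finset ι, ∑ J ∈ F, (if I ∪ J ⊆ S then bw q S else 0) ≤
        q ^ e + F.card * q ^ (2 * e) := by
      intro I hI
      rw [sum_comm, sum_congr rfl (fun J _ => bw_superset q (I ∪ J))]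
      rw [← add_sum_erase F _ hI, union_self, he I hI]
      have h4 : ∀ J ∈ F.erase I, q ^ (I ∪ J).card = q ^ (2 * e) := by
        intro J hJ
        have hne := ne_of_mem_erase hJ
        have hJF := mem_of_mem_erase hJ
        have hd : Disjoint I J := hF hI hJF hne.symm
        rw [card_union_of_disjoint hd, he I hI, he J hJF, two_mul]
      rw [sum_congr rfl h4, sum_const, nsmul_eq_mul]
      have h5 : ((F.erase I).card : ℝ) ≤ F.card := by exact_mod_cast card_le_card (erase_subset _ _)
      have h6 : 0 ≤ q ^ (2 * e) := by positivity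
      nlinarith
    calc _ ≤ ∑ I ∈ F, (q ^ e + F.card * q ^ (2 * e)) := sum_le_sum h3
      _ = M + M ^ 2 := by
        rw [sum_const, nsmul_eq_mul, hM]
        ring
  have hvar : ∑ S : Finset ι, bw q S * (Z S - M) ^ 2 ≤ M := by
    have h2 : ∀ S : Finset ι, bw q S * (Z S - M) ^ 2 =
        bw q S * Z S ^ 2 - 2 * M * (bw q S * Z S) + M ^ 2 * bw q S := fun S => by ring
    rw [sum_congr rfl (fun S _ => h2 S), sum_add_distrib, sum_sub_distrib, ← mul_sum, ← mul_sum,
      hEZ, bw_total]
    nlinarith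
  have hmiss : (∑ S : Finset ι, (if ∃ I ∈ F, I ⊆ S then 0 else bw q S)) * M ^ 2 ≤ M := by
    refine le_trans ?_ hvar
    rw [sum_mul]
    apply sum_le_sum
    intro S _
    split_ifs with h
    · rw [zero_mul]
      exact mul_nonneg (bw_nonneg h0.le h1 S) (sq_nonneg _)
    · have hZ : Z S = 0 := by
        push Not at h
        simp only [Z]
        apply sum_eq_zero
        intro I hI
        rw [if_neg (h I hI)]
      rw [hZ]
      apply le_of_eq
      ring
  rw [le_div_iff₀ hMpos]
  have : (∑ S : Finset ι, (if ∃ I ∈ F, I ⊆ S then 0 else bw q S)) * M * M ≤ 1 * M := by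
    rw [one_mul, mul_assoc, ← sq]
    exact hmiss
  exact le_of_mul_le_mul_right this hMpos

end Pool.Agent.X243.HFree
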